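import Mathlib
import Pool.Agent.Work.MP_c629c8_al.Dua.Main
import Pool.Agent.Work.MP_c629c8_al.Dua.Sum
import Pool.Agent.Work.MP_c629c8_al.Dua.Ex
import Pool.Agent.Work.MP_c629c8_al.Vec.ThmK

/-!
# Strongly reflexive character groups and direct sums of profinite groups

`Dual`, `eta`, `IsReflexive`, `StronglyReflexive` are defined in
`Pool.Agent.Work.MP_c629c8_al.Defs`, `CondA` in `Pool.Agent.Work.MP_c629c8_al.CondA`.
-/

universe u v

namespace Pool.Agent.Results.MP_c629c8_al.DirectSums

open Pool.Agent.Work.MP_c629c8_al

/-- (1) Let `X` be a complete Hausdorff group with a basis at zero of open subgroups `N` such that all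
`X / N` are torsion groups, and suppose that `X` satisfies the condition (A). Then the character
group of `X` has a basis at zero of open subgroups, and it is strongly reflexive.

(2) Let `D i` be discrete torsion groups, all but countably many of them Artinian. Then the
character group of their product, which is the direct sum of the profinite groups `(D i)^` with the
box topology, is a complete Hausdorff group with a basis at zero of open subgroups, and it is
strongly reflexive.

(3) There is an Artinian torsion group `D` such that for the character group `P` of the countable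
power of `D` the group `ℝ^ℕ × P` is not strongly reflexive. -/
theorem result :
    (∀ (X : Type u) [AddCommGroup X] [UniformSpace X] [IsUniformAddGroup X] [CompleteSpace X]
      [T2Space X] [NonarchimedeanAddGroup X], CondA X →
      (∀ (N : OpenAddSubgroup X) (x : X), ∃ n : ℕ, 0 < n ∧ n • x ∈ N) →
      NonarchimedeanAddGroup (Dual X) ∧ StronglyReflexive (Dual X)) ∧
    (∀ {I : Type u} (D : I → Type v) [∀ i, AddCommGroup (D i)] [∀ i, TopologicalSpace (D i)]
      [∀ i, DiscreteTopology (D i)], (∀ i (x : D i), ∃ n : ℕ, 0 < n ∧ n • x = 0) →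
      {i | ¬ IsArtinian ℤ (D i)}.Countable →
      NonarchimedeanAddGroup (Dual (∀ i, D i)) ∧ T2Space (Dual (∀ i, D i)) ∧
      @CompleteSpace (Dual (∀ i, D i)) (IsTopologicalAddGroup.rightUniformSpace _) ∧
      StronglyReflexive (Dual (∀ i, D i))) ∧
    ∃ (D : Type) (_ : AddCommGroup D) (_ : TopologicalSpace D) (_ : DiscreteTopology D),
      IsArtinian ℤ D ∧ (∀ x : D, ∃ n : ℕ, 0 < n ∧ n • x = 0) ∧
      ¬ StronglyReflexive ((ℕ → ℝ) × Dual (ℕ → D)) := by
  refine ⟨fun X _ _ _ _ _ _ hA ht => ⟨nonarchimedean_dual linComplete_of_complete ht,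
    stronglyReflexive_dual linComplete_of_complete hA ht⟩, fun {I} D _ _ _ ht hE => ?_,
    exists_direct_sum_example⟩
  have hX : LinComplete (∀ i, D i) := linComplete_pi
  have htm : TorsMod (∀ i, D i) := torsMod_pi ht
  have hE2 : {i | ¬ ArtinianQuotients (D i)}.Countable := by
    refine hE.mono ?_
    intro i hi
    exact fun h => hi ((artinianQuotients_iff (D i)).2 h)
  have hA : CondA (∀ i, D i) := condA_pi' (fun i => condA_of_discrete) hE2
  have h1 : NonarchimedeanAddGroup (Dual (∀ i, D i)) := nonarchimedean_dual hX htm
  refine ⟨h1, inferInstance, ?_, stronglyReflexive_dual hX hA htm⟩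
  let _ : UniformSpace (Dual (∀ i, D i)) := IsTopologicalAddGroup.rightUniformSpace _
  have : IsUniformAddGroup (Dual (∀ i, D i)) := isUniformAddGroup_of_addCommGroup
  exact completeSpace_of_linComplete (linComplete_dual_pi ht)

end Pool.Agent.Results.MP_c629c8_al.DirectSums
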