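import Mathlib
import Pool.Agent.Work.MP_c629c8_al.Ordered

/-!
# Totally ordered neighbourhood bases in strongly reflexive groups

`Dual`, `eta`, `IsReflexive`, `StronglyReflexive` are defined in
`Pool.Agent.Work.MP_c629c8_al.Defs`.
-/

namespace Pool.Agent.Results.MP_c629c8_al.OrderedBase

open Topology
open Pool.Agent.Work.MP_c629c8_al

/-- Let `G` be a strongly reflexive abelian topological group and `K ≤ H` closed subgroups. If the
neighbourhoods of zero of `H / K` have a base that is totally ordered by inclusion, then `H / K`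
is first countable (so metrizable). -/
theorem result {G : Type*} [AddCommGroup G] [TopologicalSpace G] [IsTopologicalAddGroup G]
    (hs : StronglyReflexive G) (H : AddSubgroup G) (hH : IsClosed (H : Set G))
    (K : AddSubgroup H) (hK : IsClosed (K : Set H)) (B : Set (Set (H ⧸ K)))
    (hB : (𝓝 (0 : H ⧸ K)).HasBasis (fun U => U ∈ B) (fun U => U))
    (hchain : IsChain (fun U V => U ⊆ V) B) : FirstCountableTopology (H ⧸ K) := by
  by_contra hn
  have : IsClosed (K : Set H) := hK
  have hT2 : T2Space (H ⧸ K) := inferInstance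
  have hC : CInter (H ⧸ K) := cInter_of_chain hB hchain hn
  have := hC.nonarchimedean
  -- the chain of open subgroups
  let 𝒩 : Set (AddSubgroup (H ⧸ K)) := AddSubgroup.closure '' B
  have hopen : ∀ N ∈ 𝒩, IsOpen (N : Set (H ⧸ K)) := by
    rintro _ ⟨b, hb, rfl⟩
    exact AddSubgroup.isOpen_of_mem_nhds _ (g := 0)
      (Filter.mem_of_superset (hB.mem_of_mem hb) AddSubgroup.subset_closure)
  have hchain' : IsChain (· ≤ ·) 𝒩 := by
    rintro _ ⟨b, hb, rfl⟩ _ ⟨c, hc, rfl⟩ _
    rcases hchain.total hb hc with h | h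
    · exact Or.inl (AddSubgroup.closure_mono h)
    · exact Or.inr (AddSubgroup.closure_mono h)
  have hbase : ∀ U ∈ 𝓝 (0 : H ⧸ K), ∃ N ∈ 𝒩, (N : Set (H ⧸ K)) ⊆ U := by
    intro U hU
    obtain ⟨M, hM⟩ := NonarchimedeanAddGroup.is_nonarchimedean U hU
    obtain ⟨b, hb, hbM⟩ := hB.mem_iff.1 M.mem_nhds_zero
    exact ⟨_, ⟨b, hb, rfl⟩, fun x hx => hM ((AddSubgroup.closure_le _).2 hbM hx)⟩
  have hnd : ∀ U ∈ 𝓝 (0 : H ⧸ K), ∃ x ∈ U, x ≠ 0 := by
    intro U hU
    by_contra hcon
    push Not at hcon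
    apply hn
    apply firstCountable_of_zero
    have h1 : 𝓝 (0 : H ⧸ K) = pure 0 := by
      apply le_antisymm
      · rw [Filter.le_pure_iff]
        exact Filter.mem_of_superset hU fun x hx => hcon x hx
      · exact pure_le_nhds 0
    rw [h1]
    infer_instance
  obtain ⟨E, hE, hacc⟩ := exists_system hC hopen hchain' hbase hnd
  let x : E → H ⧸ K := fun e => e.1.2.1
  let χ : E → Dual (H ⧸ K) := fun e => e.1.2.2
  -- the closed subgroup
  let L₀ : AddSubgroup H := (finSub χ).comap (QuotientAddGroup.mk' K)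
  have hL₀ : IsClosed (L₀ : Set H) :=
    (hC.isClosed_finSub χ).preimage (continuous_quot_mk (r := QuotientAddGroup.leftRel K))
  let L : AddSubgroup G := L₀.map H.subtype
  have hL : IsClosed (L : Set G) := by
    have := hH.isClosedEmbedding_subtypeVal.isClosedMap _ hL₀
    exact this
  have hLH : L ≤ H := by
    rintro _ ⟨h, -, rfl⟩
    exact h.2
  let p : L →ₜ+ H ⧸ K :=
    { toAddMonoidHom := (QuotientAddGroup.mk' K).comp (AddSubgroup.inclusion hLH)
      continuous_toFun := (continuous_quot_mk (r := QuotientAddGroup.leftRel K)).comp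
        (continuous_inclusion hLH) }
  refine not_isReflexive_of_system p x χ (fun K hK => hC.finite_of_isCompact hK) ?_ ?_ ?_
    (hs L hL).1
  · rintro ⟨_, h, hh, rfl⟩
    exact hh
  · exact fun e => hE.big e.1 e.2
  · intro U hU
    obtain ⟨V, hV, hVU⟩ := mem_nhds_subtype (L : Set G) (0 : L) U |>.1 hU
    have h1 : (fun h : H => (h : G)) ⁻¹' V ∈ 𝓝 (0 : H) :=
      continuous_subtype_val.continuousAt.preimage_mem_nhds hV
    have h2 : (QuotientAddGroup.mk : H → H ⧸ K) '' ((fun h : H => (h : G)) ⁻¹' V) ∈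
        𝓝 (0 : H ⧸ K) := by
      have := (QuotientAddGroup.isOpenMap_coe (N := K)).image_mem_nhds h1
      exact this
    obtain ⟨e, he, h, hhV, hhe⟩ := hacc _ h2
    have hfin : h ∈ L₀ := by
      show {i | χ i (QuotientAddGroup.mk h : H ⧸ K) ≠ 0}.Finite
      refine (Set.finite_singleton (⟨e, he⟩ : E)).subset fun i hi => ?_
      by_contra hne
      apply hi
      rw [hhe]
      exact hE.bio i.1 i.2 e he (fun h' => hne (Subtype.ext h'))
    exact ⟨⟨e, he⟩, ⟨h, h, hfin, rfl⟩, hVU hhV, hhe⟩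

end Pool.Agent.Results.MP_c629c8_al.OrderedBase
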