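import Mathlib
import Pool.Agent.Work.MP_c629c8_al.Vec.MainL

/-!
# Strongly reflexive abelian pro-Lie groups

`Dual`, `eta`, `IsReflexive`, `StronglyReflexive` are defined in
`Pool.Agent.Work.MP_c629c8_al.Defs`, `CondA` in `Pool.Agent.Work.MP_c629c8_al.CondA`, `IsAbLie` and
`ProLie` in `Pool.Agent.Work.MP_c629c8_al.Vec.Defs`.
-/

universe u v

namespace Pool.Agent.Results.MP_c629c8_al.ProLieGroups

open Pool.Agent.Work.MP_c629c8_al

/-- Let `G` be an abelian pro-Lie group: a complete Hausdorff abelian group in which every
neighbourhood of zero contains a closed subgroup `N` such that `G / N` is a finite-dimensional Lie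
group.

(1) `G` is strongly reflexive if and only if `ℝ^J` is a quotient of `G` only for countable sets `J`,
and `H / L` is reflexive for all closed subgroups `L ≤ H` of `G` for which `H / L` has a basis at
zero of open subgroups. If `G` is strongly reflexive, then so are all closed subgroups of `G` and
all quotients of `G` by closed subgroups.

(2) There are a set `J`, a complete Hausdorff abelian group `P` with a basis at zero of open
subgroups and a continuous open surjective homomorphism `G → ℝ^J × P` with compact kernel such that

* `G` is strongly reflexive if and only if `ℝ^J × P` is;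
* if `G` is strongly reflexive, then `J` is countable, and `P` and `ℤ^J × P` are strongly reflexive;
* if `J` is finite, or if `m U` is contained in a compact subgroup of `P` for some open subgroup `U`
  of `P` and some `m ≥ 1`, then `G` is strongly reflexive if and only if `J` is countable and `P` is
  strongly reflexive;
* if `G` satisfies the condition (A), then `G` is strongly reflexive if and only if `J` is
  countable. -/
theorem result (G : Type u) [AddCommGroup G] [UniformSpace G] [IsUniformAddGroup G]
    [CompleteSpace G] [T2Space G] (h : ProLie G) :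
    ((StronglyReflexive G ↔
      (∀ (J : Type u) (f : G →ₜ+ (J → ℝ)), Function.Surjective f → IsOpenMap f → Countable J) ∧
      ∀ L H : AddSubgroup G, IsClosed (L : Set G) → IsClosed (H : Set G) → L ≤ H →
        NonarchimedeanAddGroup (H ⧸ L.addSubgroupOf H) →
        IsReflexive (H ⧸ L.addSubgroupOf H)) ∧
    (StronglyReflexive G →
      (∀ H : AddSubgroup G, IsClosed (H : Set G) → StronglyReflexive H) ∧
      ∀ L : AddSubgroup G, IsClosed (L : Set G) → StronglyReflexive (G ⧸ L))) ∧
    ∃ (J P : Type u) (_ : AddCommGroup P) (_ : UniformSpace P) (_ : IsUniformAddGroup P)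
      (_ : CompleteSpace P) (_ : T2Space P) (_ : NonarchimedeanAddGroup P)
      (π : G →ₜ+ (J → ℝ) × P), Function.Surjective π ∧ IsOpenMap π ∧
      IsCompact {g | π g = 0} ∧
      (StronglyReflexive G ↔ StronglyReflexive ((J → ℝ) × P)) ∧
      (StronglyReflexive G →
        Countable J ∧ StronglyReflexive P ∧ StronglyReflexive ((J → ℤ) × P)) ∧
      (Finite J ∨ (∃ (m : ℕ) (U C : AddSubgroup P), m ≠ 0 ∧ IsOpen (U : Set P) ∧
          IsCompact (C : Set P) ∧ ∀ y ∈ U, m • y ∈ C) →
        (StronglyReflexive G ↔ Countable J ∧ StronglyReflexive P)) ∧
      (CondA G → (StronglyReflexive G ↔ Countable J)) :=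
  ⟨h.exact, h.main'⟩

end Pool.Agent.Results.MP_c629c8_al.ProLieGroups
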