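import Mathlib
import Pool.Agent.Work.MP_c629c8_al.Main
import Pool.Agent.Work.MP_c629c8_al.UnifPow
import Pool.Agent.Work.MP_c629c8_al.Vec.ProdMain
import Pool.Agent.Work.MP_c629c8_al.Grp.Main
import Pool.Agent.Work.MP_c629c8_al.Mod.NNegM
import Pool.Agent.Work.MP_c629c8_al.Mod.Back
import Pool.Agent.Work.MP_c629c8_al.Mod.Final

/-!
# Strongly reflexive products of abelian pro-Lie groups: the criterion and its independence

`Dual`, `eta`, `IsReflexive`, `StronglyReflexive` are defined in
`Pool.Agent.Work.MP_c629c8_al.Defs`, `CondA` and `ArtinianQuotients` in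
`Pool.Agent.Work.MP_c629c8_al.CondA`, `IsAbLie` and `ProLie` in
`Pool.Agent.Work.MP_c629c8_al.Vec.Defs`, `Pre`, `branchSub` and `BranchGroup` in
`Pool.Agent.Work.MP_c629c8_al.Grp.Defs`, `CompleteQuotients` (with `Br`) in
`Pool.Agent.Work.MP_c629c8_al.Mod.NDefs`, `IsZFC` and the set theoretic notions evaluated in a
structure `(M, ∈)` in `Pool.Agent.SigB.Defs`, `Pool.Agent.Forc.Defs` and
`Pool.Agent.GPA.PolDefs`.
-/

universe u v

namespace Pool.Agent.Results.MP_c629c8_al.ProductCriterion

open Cardinal Pool.Agent.Work.MP_c629c8_al Pool.Agent.SigB Pool.Agent.Forc Pool.Agent.Unif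

/-- Let `X i` (`i ∈ I`) be topological abelian groups, let `S` be the set of the `i` such that
not all discrete quotients of `X i` are Artinian, and let `R` be the set of the `i` such that the
real line is a quotient of `X i`.

(1) If the product of the `X i` is strongly reflexive, then `R` is countable and
`2 ^ #S ≤ 2 ^ ℵ₀`. If the `X i` are abelian pro-Lie groups with the condition (A), if all `X i` are
strongly reflexive and if `R` and `S` are countable, then the product is strongly reflexive. For
such `X i` the converse holds if `2 ^ ℵ₀ < 2 ^ ℵ₁`, or if every discrete quotient of every `X i` has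
`p`-torsion for finitely many primes `p` only, or if the `X i` are of countably many isomorphism
types.

(2) Let `c i` be different sequences of natural numbers and let `D i` be the direct sum of the
groups `ℤ/p(s)` over the initial segments `s` of `c i`, where the primes `p(s)` are different. The
product of the groups `D i` is strongly reflexive if and only if all its quotients `G/H` by closed
subgroups are complete. `CompleteQuotients` is the statement that this happens for some uncountable
set of sequences; evaluated in the universe of sets it says that such a product is strongly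
reflexive.

(3) `CompleteQuotients` is independent of ZFC. -/
theorem result :
    (∀ {I : Type u} {X : I → Type v} [∀ i, AddCommGroup (X i)] [∀ i, UniformSpace (X i)]
      [∀ i, IsUniformAddGroup (X i)],
      (StronglyReflexive (∀ i, X i) →
        {i | ∃ f : X i →ₜ+ ℝ, Function.Surjective f ∧ IsOpenMap f}.Countable ∧
        (2 : Cardinal.{u}) ^ #{i | ¬ ArtinianQuotients (X i)} ≤ 2 ^ ℵ₀) ∧
      ((∀ i, CompleteSpace (X i) ∧ T2Space (X i) ∧ ProLie (X i) ∧ CondA (X i)) →
        (∀ i, StronglyReflexive (X i)) →
        {i | ∃ f : X i →ₜ+ ℝ, Function.Surjective f ∧ IsOpenMap f}.Countable →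
        {i | ¬ ArtinianQuotients (X i)}.Countable → StronglyReflexive (∀ i, X i)) ∧
      ((∀ i, CompleteSpace (X i) ∧ T2Space (X i) ∧ ProLie (X i) ∧ CondA (X i)) →
        ((2 : Cardinal.{0}) ^ ℵ₀ < 2 ^ ℵ₁ ∨
          (∀ i, ∀ N : AddSubgroup (X i), IsOpen (N : Set (X i)) →
            {p : ℕ | p.Prime ∧ ∃ x : X i ⧸ N, x ≠ 0 ∧ p • x = 0}.Finite) ∨
          ∃ κ : I → ℕ, ∀ i j, κ i = κ j → Nonempty (X i ≃ₜ+ X j)) →
        StronglyReflexive (∀ i, X i) → (∀ i, StronglyReflexive (X i)) ∧
          {i | ∃ f : X i →ₜ+ ℝ, Function.Surjective f ∧ IsOpenMap f}.Countable ∧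
          {i | ¬ ArtinianQuotients (X i)}.Countable)) ∧
    (∀ {I : Type u} (c : I → ℕ → ℕ) (p : List ℕ → ℕ), Function.Injective c →
      Function.Injective p → (∀ s, (p s).Prime) →
      (StronglyReflexive (∀ i, BranchGroup p (c i)) ↔
        ∀ H : AddSubgroup (∀ i, BranchGroup p (c i)), IsClosed (H : Set (∀ i, BranchGroup p (c i))) →
          ∀ a : Finset I → ∀ i, BranchGroup p (c i),
            (∀ F F', F ⊆ F' → ∃ h ∈ H, ∀ i ∈ F, a F' i = a F i + h i) →
            ∃ y : ∀ i, BranchGroup p (c i), ∀ F, ∃ h ∈ H, ∀ i ∈ F, y i = a F i + h i)) ∧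
    (CompleteQuotients ZFSet.{0} ↔
      ∃ (B : Set (ℕ → ℕ)) (p : List ℕ → ℕ), ¬ B.Countable ∧ Function.Injective p ∧
        (∀ s, (p s).Prime) ∧ StronglyReflexive (∀ b : B, BranchGroup p b.1)) ∧
    (∃ (N : Type 1) (_ : Membership N N), Countable N ∧ (WellFounded fun x y : N => x ∈ y) ∧
      IsZFC N ∧ GCH N ∧ ¬ CompleteQuotients N) ∧
    (∃ (N : Type 1) (_ : Membership N N), Countable N ∧ (WellFounded fun x y : N => x ∈ y) ∧
      IsZFC N ∧ CompleteQuotients N) := by
  refine ⟨?_, ?_, completeQuotients_iff_stronglyReflexive, ?_, exists_model⟩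
  · intro I X _ _ _
    refine ⟨fun hs => ⟨countable_real hs, two_power_le hs⟩, fun h h1 h2 h3 => ?_,
      fun h h3 hs => ?_⟩
    · have i1 := fun i => (h i).1
      have i2 := fun i => (h i).2.1
      exact stronglyReflexive_pi_proLie (fun i => (h i).2.2.1) (fun i => (h i).2.2.2) h1 h2 h3
    · have i1 := fun i => (h i).1
      have i2 := fun i => (h i).2.1
      rcases h3 with hCH | h3
      · exact (stronglyReflexive_pi_iff_of_weakCH hCH (fun i => (h i).2.2.1)
          (fun i => (h i).2.2.2)).1 hs
      · exact (stronglyReflexive_pi_iff_of_types (fun i => (h i).2.2.1)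
          (fun i => (h i).2.2.2) h3).1 hs
  · intro I c p hc hp hprime
    exact stronglyReflexive_iff_limits hprime hp hc
  · obtain ⟨N, i1, i2, h1, h2, h3, h4⟩ := exists_not_completeQuotients
    exact ⟨N, i1, h1, h2, i2, h3, h4⟩

end Pool.Agent.Results.MP_c629c8_al.ProductCriterion
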